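import Pool.Agent.L0h94.SP.StmB

/-!
# SP: CHEB and REAL
-/

set_option autoImplicit false

open scoped Classical

namespace Pool.Agent.L0h84.SP

open Pool.Agent.L0h94.SP (S_CHEB S_REAL)

theorem sum_sq (U : Finset ℕ) : ∑ Z ∈ U.powerset, (2 * (Z.card : ℤ) - (U.card : ℤ)) ^ 2 =
    (U.card : ℤ) * 2 ^ U.card := by
  induction U using Finset.induction_on with
  | empty => simp
  | insert a U ha ih =>
    rw [Finset.sum_powerset_insert ha, Finset.card_insert_of_notMem ha, ← Finset.sum_add_distrib]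
    have h1 : ∀ Z ∈ U.powerset, (2 * (Z.card : ℤ) - ((U.card + 1 : ℕ) : ℤ)) ^ 2 +
        (2 * ((insert a Z).card : ℤ) - ((U.card + 1 : ℕ) : ℤ)) ^ 2 =
        2 * (2 * (Z.card : ℤ) - U.card) ^ 2 + 2 := by
      intro Z hZ
      have h2 : a ∉ Z := fun h => ha (Finset.mem_powerset.1 hZ h)
      rw [Finset.card_insert_of_notMem h2]
      push_cast
      ring
    rw [Finset.sum_congr rfl h1, Finset.sum_add_distrib, ← Finset.mul_sum, ih, Finset.sum_const,
      Finset.card_powerset]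
    push_cast
    ring

/-- **CHEB** -/
theorem t_CHEB : S_CHEB := by
  intro U D
  set n := U.card with hn
  rcases Nat.eq_zero_or_pos n with h0 | h0
  · rw [h0, mul_zero]
    exact Nat.zero_le _
  set A := U.powerset.filter fun Z => (n : ℤ) ≤ D * |2 * (Z.card : ℤ) - n| with hA
  have h1 : (A.card : ℤ) * (n : ℤ) ^ 2 ≤ ∑ Z ∈ A, (D : ℤ) ^ 2 * (2 * (Z.card : ℤ) - n) ^ 2 := by
    rw [← nsmul_eq_mul, ← Finset.sum_const]
    refine Finset.sum_le_sum fun Z hZ => ?_
    have h2 := (Finset.mem_filter.1 hZ).2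
    have h3 : (n : ℤ) ^ 2 ≤ (D * |2 * (Z.card : ℤ) - n|) ^ 2 :=
      pow_le_pow_left₀ (Int.natCast_nonneg _) h2 2
    rwa [mul_pow, sq_abs] at h3
  have h2 : ∑ Z ∈ A, (D : ℤ) ^ 2 * (2 * (Z.card : ℤ) - n) ^ 2 ≤
      ∑ Z ∈ U.powerset, (D : ℤ) ^ 2 * (2 * (Z.card : ℤ) - n) ^ 2 :=
    Finset.sum_le_sum_of_subset_of_nonneg (Finset.filter_subset _ _) fun _ _ _ => by positivity
  have h2' : ∑ Z ∈ U.powerset, (D : ℤ) ^ 2 * (2 * (Z.card : ℤ) - n) ^ 2 = (D : ℤ) ^ 2 * (n * 2 ^ n) := by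
    rw [← Finset.mul_sum, hn, sum_sq]
  rw [h2'] at h2
  have h3 : (A.card : ℤ) * (n : ℤ) ^ 2 ≤ (D : ℤ) ^ 2 * (n * 2 ^ n) := h1.trans h2
  have h4 : (n : ℤ) * ((A.card : ℤ) * n) ≤ n * ((D : ℤ) ^ 2 * 2 ^ n) := by
    calc (n : ℤ) * ((A.card : ℤ) * n) = (A.card : ℤ) * (n : ℤ) ^ 2 := by ring
      _ ≤ (D : ℤ) ^ 2 * (n * 2 ^ n) := h3
      _ = _ := by ring
  have h5 := le_of_mul_le_mul_left h4 (by exact_mod_cast h0)
  exact_mod_cast h5

/-- the sign -/
def sg (a : ZMod 2) : ℤ := if a = 0 then 1 else -1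

theorem sg_add : ∀ a b : ZMod 2, sg (a + b) = sg a * sg b := by
  unfold sg
  decide

theorem sg_one : sg 1 = -1 := by
  unfold sg
  decide

theorem sg_abs : ∀ a : ZMod 2, |sg a| = 1 := by
  unfold sg
  decide

theorem zmod2 : ∀ a : ZMod 2, a ≠ 0 → a = 1 := by decide

/-- nontrivial characters have sum zero -/
theorem sum_sg {V : Type} [AddCommGroup V] [Fintype V] (ψ : V →+ ZMod 2) (h : ψ ≠ 0) :
    ∑ x, sg (ψ x) = 0 := by
  obtain ⟨v, hv⟩ : ∃ v, ψ v ≠ 0 := by
    by_contra hc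
    push Not at hc
    exact h (AddMonoidHom.ext hc)
  have h1 : ∑ x, sg (ψ (x + v)) = ∑ x, sg (ψ x) :=
    Equiv.sum_comp (Equiv.addRight v) (fun x => sg (ψ x))
  have h2 : ∑ x, sg (ψ (x + v)) = - ∑ x, sg (ψ x) := by
    rw [← Finset.sum_neg_distrib]
    refine Finset.sum_congr rfl fun x _ => ?_
    rw [map_add, sg_add, zmod2 _ hv, sg_one]
    ring
  linarith

theorem sum_pts {V : Type} [AddCommGroup V] (U : Finset ℕ) (e : ℕ → V →+ ZMod 2) (x : V) :
    ∑ q ∈ U, sg (e q x) = 2 * ((U.filter fun q => e q x = 0).card : ℤ) - U.card := by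
  have h1 : (U.card : ℤ) = ∑ q ∈ U, (1 : ℤ) := by simp
  have h2 : ((U.filter fun q => e q x = 0).card : ℤ) = ∑ q ∈ U, if e q x = 0 then (1 : ℤ) else 0 := by
    rw [Finset.card_filter]
    push_cast
    rfl
  rw [h1, h2, Finset.mul_sum, ← Finset.sum_sub_distrib]
  refine Finset.sum_congr rfl fun q _ => ?_
  unfold sg
  by_cases h : e q x = 0
  · rw [if_pos h, if_pos h]
    norm_num
  · rw [if_neg h, if_neg h]
    norm_num

/-- **REAL** -/
theorem t_REAL : S_REAL := by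
  intro V _ _ h2 U e hU hs φ
  have : Fintype V := Fintype.ofFinite V
  by_contra hc
  push Not at hc
  have h1 : ∑ q ∈ U, ∑ x, sg (e q x) * sg (φ x) = 0 := by
    refine Finset.sum_eq_zero fun q hq => ?_
    have h3 : e q + φ ≠ 0 := by
      intro h4
      refine hc q hq (AddMonoidHom.ext fun x => ?_)
      have h5 : e q x + φ x = 0 := DFunLike.congr_fun h4 x
      have h6 : ∀ a b : ZMod 2, a + b = 0 → a = b := by decide
      exact h6 _ _ h5
    rw [← sum_sg _ h3]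
    exact Finset.sum_congr rfl fun x _ => by rw [AddMonoidHom.add_apply, sg_add]
  rw [Finset.sum_comm] at h1
  have h3 : ∀ x : V, ∑ q ∈ U, sg (e q x) * sg (φ x) =
      (2 * ((U.filter fun q => e q x = 0).card : ℤ) - U.card) * sg (φ x) := by
    intro x
    rw [← Finset.sum_mul, sum_pts]
  rw [Finset.sum_congr rfl fun x _ => h3 x, ← Finset.add_sum_erase _ _ (Finset.mem_univ (0 : V))] at h1
  have h4 : (U.filter fun q => e q (0 : V) = 0) = U := Finset.filter_true_of_mem fun q _ => map_zero _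
  have h5 : sg (φ (0 : V)) = 1 := by
    rw [map_zero]
    unfold sg
    rfl
  rw [h4, h5] at h1
  have h6 : (U.card : ℤ) ≤ ∑ x ∈ (Finset.univ : Finset V).erase 0,
      |2 * ((U.filter fun q => e q x = 0).card : ℤ) - U.card| := by
    have h7 : (U.card : ℤ) = - ∑ x ∈ (Finset.univ : Finset V).erase 0,
      (2 * ((U.filter fun q => e q x = 0).card : ℤ) - U.card) * sg (φ x) := by linarith
    calc (U.card : ℤ) ≤ |- ∑ x ∈ (Finset.univ : Finset V).erase 0,
      (2 * ((U.filter fun q => e q x = 0).card : ℤ) - U.card) * sg (φ x)| := by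
          rw [← h7]
          exact le_abs_self _
      _ ≤ _ := by
          rw [abs_neg]
          refine (Finset.abs_sum_le_sum_abs _ _).trans (Finset.sum_le_sum fun x _ => ?_)
          rw [abs_mul, sg_abs, mul_one]
  have h7 : (Nat.card V : ℤ) * U.card ≤ ∑ x ∈ (Finset.univ : Finset V).erase 0, (U.card : ℤ) := by
    refine (mul_le_mul_of_nonneg_left h6 (Int.natCast_nonneg _)).trans ?_
    rw [Finset.mul_sum]
    exact Finset.sum_le_sum fun x hx => (hs x (Finset.ne_of_mem_erase hx)).le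
  rw [Finset.sum_const, Finset.card_erase_of_mem (Finset.mem_univ _), Finset.card_univ,
    Nat.card_eq_fintype_card, nsmul_eq_mul] at h7
  have h8 : 0 < Fintype.card V := Fintype.card_pos
  have h9 : 0 < U.card := Finset.card_pos.2 hU
  have h10 : ((Fintype.card V - 1 : ℕ) : ℤ) = Fintype.card V - 1 := by
    rw [Nat.cast_sub h8]
    norm_num
  rw [h10] at h7
  have h11 : (0 : ℤ) < U.card := by exact_mod_cast h9
  nlinarith

end Pool.Agent.L0h84.SP
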