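import Pool.Agent.L0h94.SP.StmB

/-!
# SP: SQR, squares at the real places
-/

set_option autoImplicit false
set_option linter.all false

open Polynomial NumberField
open scoped Classical

namespace Pool.Agent.L0h84.SP

theorem sq_irr (H P : ℝ[X]) (hP : Irreducible P) (h : ∀ x : ℝ, P.eval x = 0 → 0 ≤ H.eval x) :
    ∃ s : ℝ[X], P ∣ H - s ^ 2 := by
  obtain ⟨z, hz⟩ : ∃ z : ℂ, aeval z P = 0 :=
    IsAlgClosed.exists_aeval_eq_zero ℂ P (degree_pos_of_irreducible hP).ne'
  obtain ⟨w, hw⟩ : ∃ w : ℂ, w ^ 2 = aeval z H := IsAlgClosed.exists_pow_nat_eq _ (by norm_num)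
  obtain ⟨s, hs⟩ : ∃ s : ℝ[X], (aeval z s) ^ 2 = aeval z H := by
    by_cases him : z.im = 0
    · have hz' : z = algebraMap ℝ ℂ z.re := Complex.ext rfl him
      have hr : P.eval z.re = 0 := by
        rw [hz', aeval_algebraMap_apply] at hz
        have := (algebraMap ℝ ℂ).injective (hz.trans (map_zero _).symm)
        rwa [coe_aeval_eq_eval] at this
      refine ⟨C (Real.sqrt (H.eval z.re)), ?_⟩
      rw [aeval_C, ← map_pow, Real.sq_sqrt (h _ hr)]
      conv_rhs => rw [hz', aeval_algebraMap_apply, coe_aeval_eq_eval]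
    · refine ⟨C (w.re - w.im / z.im * z.re) + C (w.im / z.im) * X, ?_⟩
      have : aeval z (C (w.re - w.im / z.im * z.re) + C (w.im / z.im) * X : ℝ[X]) = w := by
        rw [map_add, map_mul, aeval_C, aeval_C, aeval_X]
        apply Complex.ext
        · simp
        · simp
          field_simp
      rw [this, hw]
  have h1 : aeval z (H - s ^ 2) = 0 := by rw [map_sub, map_pow, hs, sub_self]
  exact ⟨s, (Dvd.intro _ (minpoly.eq_of_irreducible hP hz)).trans (minpoly.dvd ℝ z h1)⟩

theorem sq_mod (H A : ℝ[X]) : Squarefree A → (∀ x : ℝ, A.eval x = 0 → 0 ≤ H.eval x) →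
    ∃ s : ℝ[X], A ∣ H - s ^ 2 := by
  induction A using WfDvdMonoid.induction_on_irreducible with
  | zero => exact fun h => absurd h not_squarefree_zero
  | unit u hu => exact fun _ _ => ⟨0, hu.dvd⟩
  | mul a i ha hi ih =>
    intro hs h
    obtain ⟨s₁, h1⟩ := ih (hs.of_mul_right) (fun x hx => h x (by rw [eval_mul, hx, mul_zero]))
    obtain ⟨s₂, h2⟩ := sq_irr H i hi (fun x hx => h x (by rw [eval_mul, hx, zero_mul]))
    have hco : IsCoprime i a := by
      rw [hi.coprime_iff_not_dvd]
      rintro ⟨c, hc⟩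
      exact hi.not_isUnit (hs i ⟨c, by rw [hc]; ring⟩)
    obtain ⟨u, v, huv⟩ := hco
    refine ⟨s₂ * (v * a) + s₁ * (u * i), ?_⟩
    refine IsCoprime.mul_dvd ⟨u, v, huv⟩ ?_ ?_
    · have e : H - (s₂ * (v * a) + s₁ * (u * i)) ^ 2 = (H - s₂ ^ 2) + i * (s₂ ^ 2 * u * (2 - u * i) -
          2 * s₂ * (v * a) * s₁ * u - s₁ ^ 2 * u ^ 2 * i) := by
        have e1 : v * a = 1 - u * i := by linear_combination huv
        rw [e1]
        ring
      rw [e]
      exact dvd_add h2 (dvd_mul_right _ _)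
    · have e : H - (s₂ * (v * a) + s₁ * (u * i)) ^ 2 = (H - s₁ ^ 2) + a * (s₁ ^ 2 * v * (2 - v * a) -
          2 * s₁ * (u * i) * s₂ * v - s₂ ^ 2 * v ^ 2 * a) := by
        have e1 : u * i = 1 - v * a := by linear_combination huv
        rw [e1]
        ring
      rw [e]
      exact dvd_add h1 (dvd_mul_right _ _)

--MARK
open Pool.Agent.L0h94.SP (S_SQR)
open Pool.Agent.N783.PF

/-- **SQR** -/
theorem t_SQR : S_SQR := by
  intro g F L _ _ _ _ _ f θ hg σ h h0 hpos
  let pb : PowerBasis F L :=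
    { gen := θ
      dim := 2 * g + 1
      basis := hg.basis
      basis_eq_pow := fun i => hg.basis_apply i }
  have hgen : pb.gen = θ := rfl
  have hmin : minpoly F θ = fF f := by
    have hmon : (fF f).Monic := hg.mon.map _
    have h1 : minpoly F θ ∣ fF f := minpoly.dvd F θ hg.root
    have h2 : (minpoly F θ).natDegree = 2 * g + 1 := by
      have := pb.natDegree_minpoly
      rwa [hgen] at this
    have h3 : (fF f).natDegree = 2 * g + 1 := by
      rw [hg.mon.natDegree_map, hg.deg]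
    exact (eq_of_monic_of_dvd_of_natDegree_le (minpoly.monic (Algebra.IsIntegral.isIntegral θ)) hmon
      h1 (by rw [h2, h3])).symm
  have hirr : Irreducible (fF f) := by
    rw [← hmin]
    exact minpoly.irreducible (Algebra.IsIntegral.isIntegral θ)
  have hsq : Squarefree ((fF f).map σ) := (hirr.separable.map (f := σ)).squarefree
  refine sq_mod _ _ hsq fun x hx => ?_
  letI : Algebra F ℝ := σ.toAlgebra
  have hx' : aeval x (minpoly F pb.gen) = 0 := by
    rw [hgen, hmin, aeval_def, ← eval_map]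
    exact hx
  let τ : L →ₐ[F] ℝ := pb.lift x hx'
  have hτ : τ θ = x := pb.lift_gen x hx'
  have h1 := hpos (τ : L →+* ℝ)
  have h2 : (τ : L →+* ℝ) (aeval θ h) = (h.map σ).eval x := by
    have h3 : τ (aeval θ h) = aeval (τ θ) h := (aeval_algHom_apply τ θ h).symm
    have h4 : aeval x h = (h.map σ).eval x := by
      rw [aeval_def, ← eval_map]
      rfl
    rw [hτ, h4] at h3
    exact h3
  rw [h2] at h1
  exact h1.le

end Pool.Agent.L0h84.SP
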