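import Pool.Agent.L0h94.SP.StmB

/-!
# SP: TRK and TR2, twists by squares
-/

set_option autoImplicit false
set_option linter.all false

open Polynomial IsDedekindDomain NumberField
open scoped Classical

namespace Pool.Agent.L0h84.SP

/-! ### the polynomials -/

section poly
variable {K : Type} [Field K]

theorem scale_comp (f : K[X]) (D : K) (h3 : f.natDegree = 3) :
    (f.scaleRoots D).comp (C D * X) = C (D ^ 3) * f := by
  have h := scaleRoots_eval₂_mul (p := f) (C : K →+* K[X]) X D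
  rw [h3] at h
  rw [comp, h, eval₂_C_X, map_pow]

theorem scale_eval (f : K[X]) (D x : K) (h3 : f.natDegree = 3) :
    (f.scaleRoots D).eval (D * x) = D ^ 3 * f.eval x := by
  have h := congrArg (eval x) (scale_comp f D h3)
  rw [eval_comp, eval_mul, eval_C, eval_X, eval_mul, eval_C] at h
  exact h

theorem prod_comp (l : List (K × K)) (D : K) (hD : D ≠ 0) (g : K × K → K) (hg : ∀ p, g p = D * p.1) :
    (l.map fun p : K × K => C (g p) - X).prod =
      C (D ^ l.length) * ((l.map fun p : K × K => C p.1 - X).prod).comp (C D⁻¹ * X) := by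
  induction l with
  | nil => simp
  | cons p l ih =>
    rw [List.map_cons, List.prod_cons, List.map_cons, List.prod_cons, ih, mul_comp, sub_comp, C_comp,
      X_comp, List.length_cons, pow_succ, C_mul, hg]
    have h1 : (C (D * p.1) - X : K[X]) = C D * (C p.1 - C D⁻¹ * X) := by
      rw [mul_sub, ← C_mul, ← mul_assoc, ← C_mul, mul_inv_cancel₀ hD, C_1, one_mul]
    rw [h1]
    ring

open Pool.Agent.L0h94.SP (Cl)

theorem trk_mp (f h : K[X]) (D r : K) (hf : f.Monic) (h3 : f.natDegree = 3) (hr : r ≠ 0)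
    (hD : D = r ^ 2) (hc : Cl K f (h.comp (C D * X))) : Cl K (f.scaleRoots D) h := by
  obtain ⟨l, s, hl, hs⟩ := hc
  have hD0 : D ≠ 0 := by rw [hD]; exact pow_ne_zero _ hr
  refine ⟨l.map fun p => (D * p.1, r ^ 3 * p.2), C (r ^ l.length) * s.comp (C D⁻¹ * X), ?_, ?_⟩
  · intro p hp
    rw [List.mem_map] at hp
    obtain ⟨q, hq, rfl⟩ := hp
    obtain ⟨h1, h2⟩ := hl q hq
    refine ⟨mul_ne_zero (pow_ne_zero _ hr) h1, ?_⟩
    show (r ^ 3 * q.2) ^ 2 = (f.scaleRoots D).eval (D * q.1)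
    rw [scale_eval f D q.1 h3, ← h2, hD]
    ring
  · have h1 : (f.scaleRoots D) = C (D ^ 3) * f.comp (C D⁻¹ * X) := by
      have h2 := congrArg (fun p : K[X] => p.comp (C D⁻¹ * X)) (scale_comp f D h3)
      simp only [comp_assoc, mul_comp, C_comp, X_comp] at h2
      rw [← mul_assoc, ← C_mul, mul_inv_cancel₀ hD0, C_1, one_mul, comp_X] at h2
      exact h2
    have h2 : f.comp (C D⁻¹ * X) ∣ (h.comp (C D * X) * (l.map fun p : K × K => C p.1 - X).prod -
        s ^ 2).comp (C D⁻¹ * X) := by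
      obtain ⟨t, ht⟩ := hs
      rw [ht, mul_comp]
      exact dvd_mul_right _ _
    rw [sub_comp, mul_comp, pow_comp, comp_assoc, mul_comp, C_comp, X_comp, ← mul_assoc, ← C_mul,
      mul_inv_cancel₀ hD0, C_1, one_mul, comp_X] at h2
    rw [List.map_map]
    have h4 : (l.map ((fun p : K × K => C p.1 - X) ∘ fun p => (D * p.1, r ^ 3 * p.2))).prod =
        C (D ^ l.length) * ((l.map fun p : K × K => C p.1 - X).prod).comp (C D⁻¹ * X) :=
      prod_comp l D hD0 (fun p => D * p.1) (fun _ => rfl)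
    rw [h4, h1]
    have h5 : h * (C (D ^ l.length) * ((l.map fun p : K × K => C p.1 - X).prod).comp (C D⁻¹ * X)) -
        (C (r ^ l.length) * s.comp (C D⁻¹ * X)) ^ 2 =
        C (D ^ l.length) * (h * ((l.map fun p : K × K => C p.1 - X).prod).comp (C D⁻¹ * X) -
          (s.comp (C D⁻¹ * X)) ^ 2) := by
      rw [hD]
      simp only [map_pow]
      ring
    rw [h5]
    have h6 : IsUnit (C (D ^ 3) : K[X]) := (isUnit_C).2 (pow_ne_zero _ hD0).isUnit
    obtain ⟨t, ht⟩ := h2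
    rw [ht]
    refine ⟨C ((D ^ 3)⁻¹) * (C (D ^ l.length) * t), ?_⟩
    have h7 : (C (D ^ 3) : K[X]) * C ((D ^ 3)⁻¹) = 1 := by
      rw [← C_mul, mul_inv_cancel₀ (pow_ne_zero _ hD0), C_1]
    linear_combination (-(f.comp (C D⁻¹ * X) * (C (D ^ l.length) * t))) * h7

/-- **TRK** -/
theorem t_TRK : Pool.Agent.L0h94.SP.S_TRK := by
  intro K _ f h D r hf h3 hr hD
  have hD0 : D ≠ 0 := by rw [hD]; exact pow_ne_zero _ hr
  refine ⟨trk_mp f h D r hf h3 hr hD, fun hc => ?_⟩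
  have h1 : (h.comp (C D * X)).comp (C D⁻¹ * X) = h := by
    rw [comp_assoc, mul_comp, C_comp, X_comp, ← mul_assoc, ← C_mul, mul_inv_cancel₀ hD0, C_1, one_mul,
      comp_X]
  have h2 := trk_mp (f.scaleRoots D) (h.comp (C D * X)) D⁻¹ r⁻¹ ((monic_scaleRoots_iff D).2 hf)
    (by rw [natDegree_scaleRoots, h3]) (inv_ne_zero hr) (by rw [hD, inv_pow]) (by rw [h1]; exact hc)
  rw [← scaleRoots_mul, mul_inv_cancel₀ hD0, scaleRoots_one] at h2
  exact h2

end poly

/-! ### square roots in the completions -/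

theorem step (D : ℤ) (n : ℕ) (x : ℤ) (h1 : (2 : ℤ) ^ (n + 3) ∣ x ^ 2 - D) (h2 : x % 2 = 1) :
    ∃ y : ℤ, ((2 : ℤ) ^ (n + 1 + 3) ∣ y ^ 2 - D ∧ y % 2 = 1) ∧ (2 : ℤ) ^ (n + 2) ∣ y - x := by
  obtain ⟨c, hc⟩ := h1
  rcases Int.emod_two_eq_zero_or_one c with h3 | h3
  · refine ⟨x, ⟨?_, h2⟩, by simp⟩
    obtain ⟨d, rfl⟩ := Int.dvd_of_emod_eq_zero h3
    exact ⟨d, by rw [hc]; ring⟩
  · refine ⟨x + 2 ^ (n + 2), ⟨?_, ?_⟩, by simp⟩
    · obtain ⟨d, hd⟩ : (2 : ℤ) ∣ c + x := by omega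
      refine ⟨d + 2 ^ n, ?_⟩
      have e : (x + 2 ^ (n + 2)) ^ 2 - D = (x ^ 2 - D) + 2 ^ (n + 3) * x + 2 ^ (n + 3) * (2 * 2 ^ n) := by
        ring
      rw [e, hc]
      have e2 : (2 : ℤ) ^ (n + 3) * c + 2 ^ (n + 3) * x + 2 ^ (n + 3) * (2 * 2 ^ n) =
        2 ^ (n + 3) * (c + x) + 2 ^ (n + 3) * (2 * 2 ^ n) := by ring
      rw [e2, hd]
      ring
    · have : (2 : ℤ) ^ (n + 2) = 2 * 2 ^ (n + 1) := by ring
      rw [this]
      omega

theorem seq (D : ℕ) (hD : D % 8 = 1) : ∃ s : ℕ → ℤ, ∀ n, (2 : ℤ) ^ (n + 3) ∣ s n ^ 2 - D ∧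
    (2 : ℤ) ^ (n + 2) ∣ s (n + 1) - s n := by
  choose! g hg using step (D : ℤ)
  let s : (n : ℕ) → {x : ℤ // (2 : ℤ) ^ (n + 3) ∣ x ^ 2 - D ∧ x % 2 = 1} := fun n =>
    Nat.rec (motive := fun n => {x : ℤ // (2 : ℤ) ^ (n + 3) ∣ x ^ 2 - D ∧ x % 2 = 1})
      ⟨1, by
        constructor
        · norm_num
          omega
        · norm_num⟩ (fun n x => ⟨g n x.1, (hg n x.1 x.2.1 x.2.2).1⟩) n
  exact ⟨fun n => (s n).1, fun n => ⟨(s n).2.1, (hg n (s n).1 (s n).2.1 (s n).2.2).2⟩⟩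

open Filter Topology

theorem small {E Γ : Type*} [Field E] [LinearOrderedCommGroupWithZero Γ]
    [hv : Valued E Γ] {γ : (MonoidWithZeroHom.ofClass (Valued.v (R := E))).ValueGroup₀} {x : E}
    (hx : (Valued.v (R := E)).restrict x < γ) (c : ℤ) :
    (Valued.v (R := E)).restrict (x * (c : E)) < γ := by
  have h3 : Valued.v ((c : ℤ) : E) ≤ 1 := intCast_mem (Valued.v (R := E)).integer c
  refine lt_of_le_of_lt ?_ hx
  rw [map_mul]
  exact mul_le_of_le_one_right' ((Valued.v (R := E)).restrict_le_one_iff.2 h3)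

theorem tend {E Γ : Type*} [Field E] [LinearOrderedCommGroupWithZero Γ] [MulArchimedean Γ]
    [hv : Valued E Γ] (h2 : Valued.v (2 : E) < 1)
    (c : ℕ → ℤ) : Tendsto (fun n => (2 : E) ^ n * (c n : E)) atTop (𝓝 0) := by
  have h1 : Tendsto (fun n => (2 : E) ^ n) atTop (𝓝 0) := Valued.tendsto_zero_pow_of_v_lt_one h2
  rw [(Valued.hasBasis_nhds_zero E Γ).tendsto_right_iff] at h1 ⊢
  intro γ hγ
  filter_upwards [h1 γ hγ] with n hn
  exact small hn (c n)

theorem exists_sqrt {E Γ : Type*} [Field E] [LinearOrderedCommGroupWithZero Γ] [MulArchimedean Γ]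
    [hv : Valued E Γ] [CompleteSpace E] (h2 : Valued.v (2 : E) < 1)
    (D : ℕ) (hD : D % 8 = 1) : ∃ r : E, (D : E) = r ^ 2 := by
  obtain ⟨s, hs⟩ := seq D hD
  choose c hc using fun n => (hs n).1
  have hdv : ∀ N n : ℕ, N ≤ n → (2 : ℤ) ^ N ∣ s n - s N := by
    intro N n hn
    induction n, hn using Nat.le_induction with
    | base => simp
    | succ n hn ih =>
      have h1 : (2 : ℤ) ^ N ∣ s (n + 1) - s n := (pow_dvd_pow 2 (by omega)).trans (hs n).2
      have e : s (n + 1) - s N = (s (n + 1) - s n) + (s n - s N) := by ring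
      rw [e]
      exact dvd_add h1 ih
  have h3 : CauchySeq fun n => ((s n : ℤ) : E) := by
    rw [cauchySeq_iff_tendsto, uniformity_eq_comap_nhds_zero, tendsto_comap_iff,
      (Valued.hasBasis_nhds_zero E Γ).tendsto_right_iff]
    intro γ hγ
    have h1 : Tendsto (fun n => (2 : E) ^ n) atTop (𝓝 0) := Valued.tendsto_zero_pow_of_v_lt_one h2
    rw [(Valued.hasBasis_nhds_zero E Γ).tendsto_right_iff] at h1
    obtain ⟨N, hN⟩ := (h1 γ hγ).exists
    filter_upwards [eventually_ge_atTop (N, N)] with p hp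
    obtain ⟨c, hc⟩ : (2 : ℤ) ^ N ∣ s p.2 - s p.1 := by
      have e : s p.2 - s p.1 = (s p.2 - s N) - (s p.1 - s N) := by ring
      rw [e]
      exact dvd_sub (hdv N _ hp.2) (hdv N _ hp.1)
    have e : ((s p.2 : ℤ) : E) - ((s p.1 : ℤ) : E) = (2 : E) ^ N * (c : E) := by
      rw [← Int.cast_sub, hc]
      push_cast
      rfl
    show (Valued.v (R := E)).restrict (((s p.2 : ℤ) : E) - ((s p.1 : ℤ) : E)) < _
    rw [e]
    exact small hN c
  obtain ⟨r, hr⟩ := cauchySeq_tendsto_of_complete h3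
  refine ⟨r, ?_⟩
  have h4 : Tendsto (fun n => ((s n : ℤ) : E) ^ 2 - (D : E)) atTop (𝓝 (r ^ 2 - D)) :=
    (hr.pow 2).sub_const _
  have h5 : (fun n => ((s n : ℤ) : E) ^ 2 - (D : E)) = fun n => (2 : E) ^ n * ((8 * c n : ℤ) : E) := by
    funext n
    have := congrArg (Int.cast : ℤ → E) (hc n)
    push_cast at this ⊢
    rw [this]
    ring
  rw [h5] at h4
  have h6 := tendsto_nhds_unique h4 (tend h2 _)
  exact (sub_eq_zero.1 h6).symm

open Pool.Agent.L0h94.SP (Cl ClF S_TR2)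
open Pool.Agent.N783.PF

theorem tr2 {F E : Type} [Field F] [NumberField F] [Field E] (φ : F →+* E) (f : (𝓞 F)[X]) (h : F[X])
    (D : ℕ) (hf : f.Monic) (h3 : f.natDegree = 3) (hD : D % 8 = 1) {r : E} (hr : (D : E) = r ^ 2) :
    (Cl E ((fF f).map φ) ((h.comp (C (D : F) * X)).map φ) ↔
      Cl E ((fF (f.scaleRoots ((D : ℕ) : 𝓞 F))).map φ) (h.map φ)) := by
  have hD0 : (D : E) ≠ 0 := by
    have h1 : (D : F) ≠ 0 := by
      have : D ≠ 0 := by rintro rfl; simp at hD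
      exact_mod_cast this
    rw [← map_natCast φ]
    exact (map_ne_zero φ).2 h1
  have hr0 : r ≠ 0 := by
    rintro rfl
    exact hD0 (by rw [hr]; simp)
  set ψ : 𝓞 F →+* E := φ.comp (algebraMap (𝓞 F) F) with hψ
  have e1 : (fF f).map φ = f.map ψ := by rw [Polynomial.map_map]
  have e2 : (fF (f.scaleRoots ((D : ℕ) : 𝓞 F))).map φ = (f.map ψ).scaleRoots (D : E) := by
    rw [Polynomial.map_map, map_scaleRoots, map_natCast]
    rw [hf.leadingCoeff, map_one]
    exact one_ne_zero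
  have e3 : (h.comp (C (D : F) * X)).map φ = (h.map φ).comp (C (D : E) * X) := by
    rw [Polynomial.map_comp, Polynomial.map_mul, map_C, map_X, map_natCast]
  rw [e1, e2, e3]
  exact t_TRK E (f.map ψ) (h.map φ) (D : E) r (hf.map ψ) (by rw [hf.natDegree_map, h3]) hr0 hr

/-- **TR2** -/
theorem t_TR2 : S_TR2 := by
  intro F _ _ f h D hf h3 hD
  refine ⟨fun w hw => ?_, fun σ => ?_⟩
  · have h2 : Valued.v (2 : w.adicCompletion F) < 1 := by
      have h4 := HeightOneSpectrum.valuedAdicCompletion_eq_valuation' w (2 : F)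
      have h5 : w.valuation F (2 : F) < 1 := by
        have h6 := (HeightOneSpectrum.valuation_lt_one_iff_mem (K := F) w (2 : 𝓞 F)).2 hw
        have e : algebraMap (𝓞 F) F (2 : 𝓞 F) = 2 := map_ofNat (algebraMap (𝓞 F) F) 2
        have h8 : w.valuation F (algebraMap (𝓞 F) F (2 : 𝓞 F)) < 1 := h6
        rwa [e] at h8
      rw [← h4] at h5
      have h7 : algebraMap F (w.adicCompletion F) 2 = 2 := map_ofNat _ 2
      rw [← h7]
      exact h5
    obtain ⟨r, hr⟩ := exists_sqrt h2 D hD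
    exact tr2 (algebraMap F (w.adicCompletion F)) f h D hf h3 hD hr
  · exact tr2 σ f h D hf h3 hD (Real.sq_sqrt (Nat.cast_nonneg D)).symm

end Pool.Agent.L0h84.SP
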